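import Pool.Agent.SirP.Defs
import Pool.Agent.Sir.Base

/-!
# Transfer between `HF N` and `Sir.H1 N`
-/

namespace SirP

open MeasureTheory Filter Topology

variable {N : ℕ}

/-- the two spaces -/
theorem exists_H1 (u : HF N) :
    ∃ z : Sir.H1 N, Sir.fn z =ᵐ[volume] u.fn ∧ Sir.gr z =ᵐ[volume] u.gr := by
  have h : ∀ n : ℕ, ∃ φ : E N → ℝ, ContDiff ℝ 1 φ ∧ HasCompactSupport φ ∧
      (∫ x, (u.fn x - φ x) ^ 2) < 1 / ((n : ℝ) + 1) ∧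
      (∫ x, ‖u.gr x - gradient φ x‖ ^ 2) < 1 / ((n : ℝ) + 1) := fun n =>
    u.lim _ (by positivity)
  choose φ h1 h2 h3 h4 using h
  choose w h5 h6 using fun n => Sir.ofCc (φ n) (h1 n) (h2 n)
  have e1 : ∀ n, (∫ x, (Sir.fn (w n) x - u.fn x) ^ 2) = ∫ x, (u.fn x - φ n x) ^ 2 := by
    intro n
    refine integral_congr_ae ?_
    filter_upwards [h5 n] with x hx
    rw [hx]
    ring
  have e2 : ∀ n, (∫ x, ‖Sir.gr (w n) x - u.gr x‖ ^ 2) = ∫ x, ‖u.gr x - gradient (φ n) x‖ ^ 2 := by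
    intro n
    refine integral_congr_ae ?_
    filter_upwards [h6 n] with x hx
    rw [hx, norm_sub_rev]
  obtain ⟨z, a, b, -⟩ := Sir.H1_closed w u.fn u.gr u.memf u.memg
    (by
      refine squeeze_zero (fun n => integral_nonneg fun x => sq_nonneg _) (fun n => ?_)
        tendsto_one_div_add_atTop_nhds_zero_nat
      rw [e1]
      exact (h3 n).le)
    (by
      refine squeeze_zero (fun n => integral_nonneg fun x => sq_nonneg _) (fun n => ?_)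
        tendsto_one_div_add_atTop_nhds_zero_nat
      rw [e2]
      exact (h4 n).le)
  exact ⟨z, a, b⟩

theorem exists_HF (z : Sir.H1 N) : ∃ u : HF N, u.fn = Sir.fn z ∧ u.gr = Sir.gr z := by
  refine ⟨⟨Sir.fn z, Sir.gr z, Sir.fn_memLp z, Sir.gr_memLp z, ?_⟩, rfl, rfl⟩
  intro ep hep
  obtain ⟨w, φ, h1, h2⟩ := Sir.exists_approx z
  have h3 : Tendsto (fun n => ‖z - w n‖ ^ 2) atTop (𝓝 0) := by
    have h4 : Tendsto (fun n => ‖z - w n‖) atTop (𝓝 0) := by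
      have h5 := (tendsto_const_nhds (x := z)).sub h2
      rw [sub_self] at h5
      simpa using h5.norm
    simpa using h4.pow 2
  obtain ⟨n, hn⟩ := (h3.eventually (gt_mem_nhds hep)).exists
  obtain ⟨a1, a2, a3, a4⟩ := h1 n
  have e1 : ‖z - w n‖ ^ 2 = (∫ x, ‖Sir.gr (z - w n) x‖ ^ 2) + ∫ x, Sir.fn (z - w n) x ^ 2 := by
    rw [Sir.norm_sq_eq]
    unfold Sir.ip Sir.gX Sir.gY
    rw [one_mul]
    congr 1
    · refine integral_congr_ae (Eventually.of_forall fun x => ?_)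
      simp only [real_inner_self_eq_norm_sq]
    · refine integral_congr_ae (Eventually.of_forall fun x => ?_)
      simp only [pow_two]
  have e2 : (∫ x, ‖Sir.gr (z - w n) x‖ ^ 2) = ∫ x, ‖Sir.gr z x - gradient (φ n) x‖ ^ 2 := by
    refine integral_congr_ae ?_
    filter_upwards [a4, Sir.gr_sub z (w n)] with x hx hy
    rw [hy, hx]
  have e3 : (∫ x, Sir.fn (z - w n) x ^ 2) = ∫ x, (Sir.fn z x - φ n x) ^ 2 := by
    refine integral_congr_ae ?_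
    filter_upwards [a3, Sir.fn_sub z (w n)] with x hx hy
    rw [hy, hx]
  have p1 : 0 ≤ ∫ x, ‖Sir.gr z x - gradient (φ n) x‖ ^ 2 := integral_nonneg fun x => sq_nonneg _
  have p2 : 0 ≤ ∫ x, (Sir.fn z x - φ n x) ^ 2 := integral_nonneg fun x => sq_nonneg _
  rw [e2, e3] at e1
  exact ⟨φ n, a1, a2, by linarith, by linarith⟩

/-- `u : HF N` and `z : H1 N` are the same function -/
def Eqv (u : HF N) (z : Sir.H1 N) : Prop :=
  Sir.fn z =ᵐ[volume] u.fn ∧ Sir.gr z =ᵐ[volume] u.gr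

theorem ip_eqv {u v : HF N} {z w : Sir.H1 N} (h1 : Eqv u z) (h2 : Eqv v w) (l : ℝ) :
    ip l u v = Sir.ip l z w := by
  unfold ip Sir.ip Sir.gX Sir.gY
  have e1 : (∫ x, inner ℝ (u.gr x) (v.gr x)) = ∫ x, inner ℝ (Sir.gr z x) (Sir.gr w x) := by
    refine integral_congr_ae ?_
    filter_upwards [h1.2, h2.2] with x a b
    rw [a, b]
  have e2 : (∫ x, u.fn x * v.fn x) = ∫ x, Sir.fn z x * Sir.fn w x := by
    refine integral_congr_ae ?_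
    filter_upwards [h1.1, h2.1] with x a b
    rw [a, b]
  rw [e1, e2]

theorem Q4_eqv {u v w z : HF N} {u' v' w' z' : Sir.H1 N} (h1 : Eqv u u') (h2 : Eqv v v')
    (h3 : Eqv w w') (h4 : Eqv z z') : Q4 u v w z = Sir.Q4 u' v' w' z' := by
  unfold Q4 Sir.Q4
  refine integral_congr_ae ?_
  filter_upwards [h1.1, h2.1, h3.1, h4.1] with x a b c d
  rw [a, b, c, d]

theorem Nz_eqv {u : HF N} {z : Sir.H1 N} (h : Eqv u z) : Nz u ↔ z ≠ 0 := by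
  unfold Nz
  rw [not_iff_not]
  constructor
  · intro h1
    refine Sir.H1_ext ?_
    filter_upwards [h.1, h1, Sir.fn_zero (N := N)] with x a b c
    rw [a, b, c]
  · intro h1
    rw [h1] at h
    filter_upwards [h.1, Sir.fn_zero (N := N)] with x a c
    rw [← a, c]

theorem En_eqv {l1 l2 m1 m2 be : ℝ} {u v : HF N} {z w : Sir.H1 N} (h1 : Eqv u z) (h2 : Eqv v w) :
    En l1 l2 m1 m2 be u v = Sir.En l1 l2 m1 m2 be z w := by
  unfold En Sir.En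
  rw [ip_eqv h1 h1, ip_eqv h2 h2, Q4_eqv h1 h1 h1 h1, Q4_eqv h1 h1 h2 h2, Q4_eqv h2 h2 h2 h2]

theorem Neh_eqv {l1 l2 m1 m2 be : ℝ} {u v : HF N} {z w : Sir.H1 N} (h1 : Eqv u z) (h2 : Eqv v w) :
    Neh l1 l2 m1 m2 be u v ↔ Sir.Neh l1 l2 m1 m2 be z w := by
  unfold Neh Sir.Neh
  rw [Nz_eqv h1, Nz_eqv h2, ip_eqv h1 h1, ip_eqv h2 h2, Q4_eqv h1 h1 h1 h1, Q4_eqv h1 h1 h2 h2,
    Q4_eqv h2 h2 h2 h2]

theorem exists_Eqv (u : HF N) : ∃ z : Sir.H1 N, Eqv u z := exists_H1 u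

theorem exists_Eqv' (z : Sir.H1 N) : ∃ u : HF N, Eqv u z := by
  obtain ⟨u, h1, h2⟩ := exists_HF z
  exact ⟨u, by rw [h1], by rw [h2]⟩

theorem Sol_eqv {l1 l2 m1 m2 be : ℝ} {u v : HF N} {z w : Sir.H1 N} (h1 : Eqv u z) (h2 : Eqv v w) :
    Sol l1 l2 m1 m2 be u v ↔ Sir.Sol l1 l2 m1 m2 be z w := by
  unfold Sol Sir.Sol
  constructor
  · rintro ⟨a, b⟩
    refine ⟨fun h => ?_, fun h => ?_⟩
    · obtain ⟨h', hh⟩ := exists_Eqv' h
      rw [← ip_eqv h1 hh, ← Q4_eqv h1 h1 h1 hh, ← Q4_eqv h2 h2 h1 hh]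
      exact a h'
    · obtain ⟨h', hh⟩ := exists_Eqv' h
      rw [← ip_eqv h2 hh, ← Q4_eqv h2 h2 h2 hh, ← Q4_eqv h1 h1 h2 hh]
      exact b h'
  · rintro ⟨a, b⟩
    refine ⟨fun h => ?_, fun h => ?_⟩
    · obtain ⟨h', hh⟩ := exists_Eqv h
      rw [ip_eqv h1 hh, Q4_eqv h1 h1 h1 hh, Q4_eqv h2 h2 h1 hh]
      exact a h'
    · obtain ⟨h', hh⟩ := exists_Eqv h
      rw [ip_eqv h2 hh, Q4_eqv h2 h2 h2 hh, Q4_eqv h1 h1 h2 hh]
      exact b h'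

theorem level_eq (l1 l2 m1 m2 be : ℝ) : level N l1 l2 m1 m2 be = Sir.level N l1 l2 m1 m2 be := by
  unfold level Sir.level
  congr 1
  ext e
  constructor
  · rintro ⟨u, v, h1, h2⟩
    obtain ⟨z, hz⟩ := exists_Eqv u
    obtain ⟨w, hw⟩ := exists_Eqv v
    exact ⟨z, w, (Neh_eqv hz hw).1 h1, by rw [h2, En_eqv hz hw]⟩
  · rintro ⟨z, w, h1, h2⟩
    obtain ⟨u, hz⟩ := exists_Eqv' z
    obtain ⟨v, hw⟩ := exists_Eqv' w
    exact ⟨u, v, (Neh_eqv hz hw).2 h1, by rw [h2, En_eqv hz hw]⟩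

theorem HasGS_eq (l1 l2 m1 m2 be : ℝ) :
    HasGS N l1 l2 m1 m2 be ↔ Sir.HasGS N l1 l2 m1 m2 be := by
  unfold HasGS Sir.HasGS
  rw [level_eq]
  constructor
  · rintro ⟨u, v, h1, h2, h3, h4⟩
    obtain ⟨z, hz⟩ := exists_Eqv u
    obtain ⟨w, hw⟩ := exists_Eqv v
    exact ⟨z, w, (Nz_eqv hz).1 h1, (Nz_eqv hw).1 h2, (Sol_eqv hz hw).1 h3, by
      rw [← h4, En_eqv hz hw]⟩
  · rintro ⟨z, w, h1, h2, h3, h4⟩
    obtain ⟨u, hz⟩ := exists_Eqv' z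
    obtain ⟨v, hw⟩ := exists_Eqv' w
    exact ⟨u, v, (Nz_eqv hz).2 h1, (Nz_eqv hw).2 h2, (Sol_eqv hz hw).2 h3, by
      rw [← h4, En_eqv hz hw]⟩

theorem SNeh_eqv {l m : ℝ} {u : HF N} {z : Sir.H1 N} (h : Eqv u z) :
    SNeh l m u ↔ Sir.SNeh l m z := by
  unfold SNeh Sir.SNeh
  rw [Nz_eqv h, ip_eqv h h, Q4_eqv h h h h]

theorem SEn_eqv {l m : ℝ} {u : HF N} {z : Sir.H1 N} (h : Eqv u z) :
    SEn l m u = Sir.SEn l m z := by
  unfold SEn Sir.SEn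
  rw [ip_eqv h h, Q4_eqv h h h h]

theorem SGS_eqv {l m : ℝ} {u : HF N} {z : Sir.H1 N} (h : Eqv u z) :
    SGS l m u ↔ Sir.SGS l m z := by
  unfold SGS Sir.SGS
  rw [Nz_eqv h, SEn_eqv h]
  constructor
  · rintro ⟨a, b, c⟩
    refine ⟨a, fun g => ?_, fun y hy => ?_⟩
    · obtain ⟨g', hg⟩ := exists_Eqv' g
      rw [← ip_eqv h hg, ← Q4_eqv h h h hg]
      exact b g'
    · obtain ⟨y', hy'⟩ := exists_Eqv' y
      rw [← SEn_eqv hy']
      exact c y' ((SNeh_eqv hy').2 hy)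
  · rintro ⟨a, b, c⟩
    refine ⟨a, fun g => ?_, fun y hy => ?_⟩
    · obtain ⟨g', hg⟩ := exists_Eqv g
      rw [ip_eqv h hg, Q4_eqv h h h hg]
      exact b g'
    · obtain ⟨y', hy'⟩ := exists_Eqv y
      rw [SEn_eqv hy']
      exact c y' ((SNeh_eqv hy').1 hy)

theorem tau_eq (l m l' : ℝ) : tau N l m l' = Sir.tau N l m l' := by
  unfold tau Sir.tau
  congr 1
  ext t
  constructor
  · rintro ⟨u, v, h1, h2, h3⟩
    obtain ⟨z, hz⟩ := exists_Eqv u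
    obtain ⟨w, hw⟩ := exists_Eqv v
    exact ⟨z, w, (SGS_eqv hz).1 h1, by rwa [← Q4_eqv hz hz hw hw], by
      rw [h3, ip_eqv hw hw, Q4_eqv hz hz hw hw]⟩
  · rintro ⟨z, w, h1, h2, h3⟩
    obtain ⟨u, hz⟩ := exists_Eqv' z
    obtain ⟨v, hw⟩ := exists_Eqv' w
    exact ⟨u, v, (SGS_eqv hz).2 h1, by rwa [Q4_eqv hz hz hw hw], by
      rw [h3, ip_eqv hw hw, Q4_eqv hz hz hw hw]⟩

end SirP
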