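import Pool.Agent.SirP.DefsF
import Pool.Agent.SirP.Tr
import Pool.Agent.SirF.Kap

/-!
# Transfer of the two constants
-/

namespace SirP

open MeasureTheory

variable {N : ℕ}

theorem gam_eq (l : ℝ) : gam N l = Sir.S2 N l := by
  unfold gam Sir.S2
  congr 1
  ext t
  constructor
  · rintro ⟨u, h1, h2⟩
    obtain ⟨z, hz⟩ := exists_Eqv u
    exact ⟨z, (Nz_eqv hz).1 h1, by rw [h2, ip_eqv hz hz, Q4_eqv hz hz hz hz]⟩
  · rintro ⟨z, h1, h2⟩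
    obtain ⟨u, hz⟩ := exists_Eqv' z
    exact ⟨u, (Nz_eqv hz).2 h1, by rw [h2, ip_eqv hz hz, Q4_eqv hz hz hz hz]⟩

theorem kap_eq (l1 l2 : ℝ) : kap N l1 l2 = Sir.kap N l1 l2 := by
  unfold kap Sir.kap
  congr 1
  ext t
  constructor
  · rintro ⟨u, v, h1, h2⟩
    obtain ⟨z, hz⟩ := exists_Eqv u
    obtain ⟨w, hw⟩ := exists_Eqv v
    exact ⟨z, w, by rwa [← Q4_eqv hz hz hw hw], by
      rw [h2, ip_eqv hz hz, ip_eqv hw hw, Q4_eqv hz hz hw hw]⟩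
  · rintro ⟨z, w, h1, h2⟩
    obtain ⟨u, hz⟩ := exists_Eqv' z
    obtain ⟨v, hw⟩ := exists_Eqv' w
    exact ⟨u, v, by rwa [Q4_eqv hz hz hw hw], by
      rw [h2, ip_eqv hz hz, ip_eqv hw hw, Q4_eqv hz hz hw hw]⟩

end SirP
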