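import Mathlib

/-!
# MP_2cd2dd_an : definitions

`HF N` is the Sobolev space `H¹(ℝ^N)`: the functions `u` in `L²` with a vector field `g` in `L²` (the weak gradient)
such that `(u, g)` is a limit in `L²` of pairs `(φ, ∇φ)`, `φ` continuously differentiable with compact support.
-/

namespace SirP

open MeasureTheory

/-- the space `ℝ^N` -/
abbrev E (N : ℕ) : Type := EuclideanSpace ℝ (Fin N)

/-- a function `fn` of class `H¹(ℝ^N)` with its weak gradient `gr` -/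
structure HF (N : ℕ) where
  fn : E N → ℝ
  gr : E N → E N
  memf : MemLp fn 2 (volume : Measure (E N))
  memg : MemLp gr 2 (volume : Measure (E N))
  lim : ∀ ep : ℝ, 0 < ep → ∃ φ : E N → ℝ, ContDiff ℝ 1 φ ∧ HasCompactSupport φ ∧
    (∫ x, (fn x - φ x) ^ 2) < ep ∧ (∫ x, ‖gr x - gradient φ x‖ ^ 2) < ep

/-- `u` is not almost everywhere zero -/
def Nz {N : ℕ} (u : HF N) : Prop := ¬ u.fn =ᵐ[volume] fun _ => (0 : ℝ)

/-- `∫ (∇u · ∇v + l u v)` -/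
noncomputable def ip {N : ℕ} (l : ℝ) (u v : HF N) : ℝ :=
  (∫ x, inner ℝ (u.gr x) (v.gr x)) + l * ∫ x, u.fn x * v.fn x

/-- `∫ u v w z` -/
noncomputable def Q4 {N : ℕ} (u v w z : HF N) : ℝ := ∫ x, u.fn x * v.fn x * w.fn x * z.fn x

/-- the energy `E_β(u,v)` -/
noncomputable def En {N : ℕ} (l1 l2 m1 m2 be : ℝ) (u v : HF N) : ℝ :=
  (ip l1 u u + ip l2 v v) / 2 - (m1 * Q4 u u u u + 2 * be * Q4 u u v v + m2 * Q4 v v v v) / 4

/-- the set `𝒩_β` -/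
def Neh {N : ℕ} (l1 l2 m1 m2 be : ℝ) (u v : HF N) : Prop :=
  Nz u ∧ Nz v ∧ ip l1 u u = m1 * Q4 u u u u + be * Q4 u u v v ∧
    ip l2 v v = m2 * Q4 v v v v + be * Q4 u u v v

/-- `(u,v)` is a (weak) solution of the system `(S)` -/
def Sol {N : ℕ} (l1 l2 m1 m2 be : ℝ) (u v : HF N) : Prop :=
  (∀ h : HF N, ip l1 u h = m1 * Q4 u u u h + be * Q4 v v u h) ∧
    (∀ h : HF N, ip l2 v h = m2 * Q4 v v v h + be * Q4 u u v h)

/-- the level `A_β` -/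
noncomputable def level (N : ℕ) (l1 l2 m1 m2 be : ℝ) : ℝ :=
  sInf {e : ℝ | ∃ u v : HF N, Neh l1 l2 m1 m2 be u v ∧ e = En l1 l2 m1 m2 be u v}

/-- the system `(S)` has a ground state -/
def HasGS (N : ℕ) (l1 l2 m1 m2 be : ℝ) : Prop :=
  ∃ u v : HF N, Nz u ∧ Nz v ∧ Sol l1 l2 m1 m2 be u v ∧
    En l1 l2 m1 m2 be u v = level N l1 l2 m1 m2 be

/-- `w ≠ 0` lies on the Nehari manifold of `-Δw + l w = m w³` -/
def SNeh {N : ℕ} (l m : ℝ) (w : HF N) : Prop := Nz w ∧ ip l w w = m * Q4 w w w w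

/-- the energy of the scalar equation -/
noncomputable def SEn {N : ℕ} (l m : ℝ) (w : HF N) : ℝ := ip l w w / 2 - m * Q4 w w w w / 4

/-- `w` is a ground state of the scalar equation `-Δw + l w = m w³` -/
def SGS {N : ℕ} (l m : ℝ) (w : HF N) : Prop :=
  Nz w ∧ (∀ h : HF N, ip l w h = m * Q4 w w w h) ∧ ∀ z : HF N, SNeh l m z → SEn l m w ≤ SEn l m z

/-- `inf { ∫(|∇φ|² + l' φ²) / ∫ w²φ² : w a ground state of -Δw + l w = m w³ }` -/
noncomputable def tau (N : ℕ) (l m l' : ℝ) : ℝ :=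
  sInf {t : ℝ | ∃ w p : HF N, SGS l m w ∧ Q4 w w p p ≠ 0 ∧ t = ip l' p p / Q4 w w p p}

end SirP
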