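import Pool.Agent.SirP.Defs

/-!
# MP_2cd2dd_an : two constants
-/

namespace SirP

open MeasureTheory

/-- `inf (∫(|∇u|² + l u²))² / ∫ u⁴` (the least energy of `-Δw + l w = m w³` is `gam N l / (4 m)`) -/
noncomputable def gam (N : ℕ) (l : ℝ) : ℝ :=
  sInf {t : ℝ | ∃ u : HF N, Nz u ∧ t = ip l u u ^ 2 / Q4 u u u u}

/-- `inf (∫(|∇u|² + l1 u²)) (∫(|∇v|² + l2 v²)) / ∫ u² v²` -/
noncomputable def kap (N : ℕ) (l1 l2 : ℝ) : ℝ :=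
  sInf {t : ℝ | ∃ u v : HF N, Q4 u u v v ≠ 0 ∧ t = ip l1 u u * ip l2 v v / Q4 u u v v}

end SirP
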